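import Pool.Agent.H43.PRP.RRF
import Pool.Agent.H17.HD.XK
import Pool.Agent.H54.CL.Law

/-!
# Board prp_modules (MP_e37c09_lc), row ENU: an enumeration in HOD
-/

open Ordinal Cardinal Order Set
open scoped ZFSet

universe u

namespace Pool.Agent.H43.PRP

open _root_.HD HD.PRK HD.PRP

/-- the least codes of the sets with `RR` -/
def Cd (δ κ : Ordinal.{u}) (t : Ordinal.{u} → Ordinal.{u} → Ordinal.{u}) (Q : ZFSet.{u})
    (cs en : Ordinal.{u} → ZFSet.{u}) (σ ξ : Ordinal.{u}) : Set Ordinal.{u} :=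
  {c | RR δ κ t Q (cs σ) ξ (en c) ∧ ∀ c' < c, en c' ≠ en c}

theorem mem_Cd {δ κ : Ordinal.{u}} {t : Ordinal.{u} → Ordinal.{u} → Ordinal.{u}} {Q : ZFSet.{u}}
    {cs en : Ordinal.{u} → ZFSet.{u}} {σ ξ c : Ordinal.{u}} : c ∈ Cd δ κ t Q cs en σ ξ ↔
      RR δ κ t Q (cs σ) ξ (en c) ∧ ∀ c' < c, en c' ≠ en c := Iff.rfl

theorem do_Cd {δ κ : Ordinal.{u}} {t : Ordinal.{u} → Ordinal.{u} → Ordinal.{u}} {Q : ZFSet.{u}}
    {cs en : Ordinal.{u} → ZFSet.{u}} (hen : EN en)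
    (hcs : DZ fun v => (v 0).IsOrdinal ∧ v 1 = cs (v 0).rank)
    (hR : DZ fun v => (v 1).IsOrdinal ∧ RR δ κ t Q (v 0) (v 1).rank (v 2)) :
    DO fun w => w 0 ∈ Cd δ κ t Q cs en (w 1) (w 2) := by
  refine ⟨fun v => (∃ s, ∃ W, ((v 1).IsOrdinal ∧ s = cs (v 1).rank) ∧
    ((v 0).IsOrdinal ∧ W = en (v 0).rank) ∧ ((v 2).IsOrdinal ∧ RR δ κ t Q s (v 2).rank W)) ∧
    ∀ c ∈ v 0, ∀ W, ((v 0).IsOrdinal ∧ W = en (v 0).rank) → ¬ (c.IsOrdinal ∧ W = en c.rank),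
    ?_, fun w => ?_⟩
  · refine DZ.and ?_ ?_
    · refine DZ.ex (R := fun s v => ∃ W, ((v 1).IsOrdinal ∧ s = cs (v 1).rank) ∧
        ((v 0).IsOrdinal ∧ W = en (v 0).rank) ∧
        ((v 2).IsOrdinal ∧ RR δ κ t Q s (v 2).rank W)) ?_
      refine DZ.ex (R := fun W v => ((v 2).IsOrdinal ∧ v 0 = cs (v 2).rank) ∧
        ((v 1).IsOrdinal ∧ W = en (v 1).rank) ∧
        ((v 3).IsOrdinal ∧ RR δ κ t Q (v 0) (v 3).rank W)) ?_
      refine DZ.and (hcs.ren fun n => if n = 0 then 3 else 1) (DZ.and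
        (hen.dz.ren fun n => if n = 0 then 2 else 0)
        (hR.ren fun n => if n = 0 then 1 else if n = 1 then 4 else 0))
    · refine DZ.allMem (R := fun c v => ∀ W, ((v 0).IsOrdinal ∧ W = en (v 0).rank) →
        ¬ (c.IsOrdinal ∧ W = en c.rank)) 0 ?_
      refine DZ.all (R := fun W v => ((v 1).IsOrdinal ∧ W = en (v 1).rank) →
        ¬ ((v 0).IsOrdinal ∧ W = en (v 0).rank)) ?_
      exact (hen.dz.ren fun n => if n = 0 then 2 else 0).imp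
        (hen.dz.ren fun n => if n = 0 then 1 else 0).not
  · beta_reduce
    rw [mem_Cd]
    have e0 : (ov w 0).rank = w 0 := rank_toZFSet _
    have e1 : (ov w 1).rank = w 1 := rank_toZFSet _
    have e2 : (ov w 2).rank = w 2 := rank_toZFSet _
    have o0 : (ov w 0).IsOrdinal := ZFSet.isOrdinal_toZFSet _
    have o1 : (ov w 1).IsOrdinal := ZFSet.isOrdinal_toZFSet _
    have o2 : (ov w 2).IsOrdinal := ZFSet.isOrdinal_toZFSet _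
    rw [e0, e1, e2]
    constructor
    · rintro ⟨h1, h2⟩
      refine ⟨⟨_, _, ⟨o1, rfl⟩, ⟨o0, rfl⟩, ⟨o2, h1⟩⟩, fun c hc W hW hc' => ?_⟩
      obtain ⟨a, ha, rfl⟩ := mem_toZFSet_iff.1 (show c ∈ (w 0).toZFSet from hc)
      rw [rank_toZFSet] at hc'
      exact h2 a ha (hc'.2.symm.trans hW.2)
    · rintro ⟨⟨s, W, ⟨-, rfl⟩, ⟨-, rfl⟩, ⟨-, h1⟩⟩, h2⟩
      refine ⟨h1, fun c' hc' he => ?_⟩
      refine h2 c'.toZFSet (show c'.toZFSet ∈ (w 0).toZFSet from toZFSet_mem_toZFSet_iff.2 hc') _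
        ⟨o0, rfl⟩ ⟨ZFSet.isOrdinal_toZFSet _, ?_⟩
      rw [rank_toZFSet]
      exact he.symm

/-- `c` is the code with the number `η` -/
def Gm (t : Ordinal.{u} → Ordinal.{u} → Ordinal.{u})
    (X : Ordinal.{u} → Ordinal.{u} → Set Ordinal.{u}) (η c : Ordinal.{u}) : Prop :=
  ∃ ξ σ i p, p = t σ i ∧ η = t ξ p ∧ nth (X σ ξ) i c

theorem do_Gm {t : Ordinal.{u} → Ordinal.{u} → Ordinal.{u}}
    {X : Ordinal.{u} → Ordinal.{u} → Set Ordinal.{u}} (ht : DO fun w => w 2 = t (w 0) (w 1))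
    (hX : DO fun w => w 0 ∈ X (w 1) (w 2)) : DO fun w => Gm t X (w 0) (w 1) := by
  have hn : DO fun w => nth (X (w 2) (w 3)) (w 0) (w 1) := by
    have h := HD.All.db (fun a w => a ∈ X (w 0) (w 1)) hX
    exact h
  have ht' : ∀ i j k, DO fun w => w k = t (w i) (w j) := fun i j k =>
    ht.s3 (X := fun a b c => c = t a b) i j k
  refine DO.ex (R := fun ξ w => ∃ σ i p, p = t σ i ∧ w 0 = t ξ p ∧ nth (X σ ξ) i (w 1)) ?_
  refine DO.ex (R := fun σ w => ∃ i p, p = t σ i ∧ w 1 = t (w 0) p ∧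
    nth (X σ (w 0)) i (w 2)) ?_
  refine DO.ex (R := fun i w => ∃ p, p = t (w 0) i ∧ w 2 = t (w 1) p ∧
    nth (X (w 0) (w 1)) i (w 3)) ?_
  refine DO.ex (R := fun p w => p = t (w 1) (w 0) ∧ w 3 = t (w 2) p ∧
    nth (X (w 1) (w 2)) (w 0) (w 4)) ?_
  -- 0 = p, 1 = i, 2 = σ, 3 = ξ, 4 = η, 5 = c
  refine DO.and (ht' 2 1 0) (DO.and (ht' 3 0 4) ?_)
  exact hn.s4 (X := fun i c σ ξ => nth (X σ ξ) i c) 1 5 2 3

theorem pf_ENU (h0 : HD.PRP.T_FC.{u}) (h1 : T_RRD.{u}) (h2 : T_RRF.{u}) : T_ENU.{u} := by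
  intro δ hext hA K hK hδK t Q ht htinj htlt hQ hthin
  obtain ⟨D, hD, hDr, hDs, hD0⟩ : ∃ D : Cardinal.{u}, δ = D.ord ∧ D.IsRegular ∧
      D.IsStrongLimit ∧ ℵ₀ < D := by
    obtain ⟨η, -, θ, j, h⟩ := HD.All.xa δ hext 0
    exact HD.All.xb δ η θ j h
  have hDK : D < K := Cardinal.ord_lt_ord.1 (hD ▸ hδK)
  have hK0 : ℵ₀ < K := hD0.trans hDK
  obtain ⟨cs, hcs, hcs2⟩ := h0
  obtain ⟨CF, hCF, hCF2⟩ := hcs2 K hK hK0
  obtain ⟨en, hen⟩ := HD.All.en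
  have hR := h1 δ K.ord t Q ht hQ
  have hVH := HD.All.vh.{u}
  have hod : ∀ σ, OD (cs σ) := by
    intro σ
    refine OD.of_dz ?_
    refine (DZ.od (R := fun x v => x.IsOrdinal ∧ v 0 = cs x.rank) (OD.ordinal σ) hcs).congr
      fun v => ?_
    rw [rank_toZFSet]
    exact ⟨fun h => ⟨ZFSet.isOrdinal_toZFSet _, h⟩, fun h => h.2⟩
  -- few codes
  have hfew : ∀ σ ξ, Few K.ord (Cd δ K.ord t Q cs en σ ξ) := by
    intro σ ξ
    obtain ⟨ν, hν, e, he⟩ := h2 δ hext hA K hK hδK t Q ht hQ hthin (cs σ) ξ (hod σ)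
    refine ⟨ν.ord, Cardinal.ord_lt_ord.2 hν, fun a => sInf {c | en c = e a}, fun c hc => ?_⟩
    obtain ⟨hc1, hc2⟩ := mem_Cd.1 hc
    obtain ⟨i, hi, hci⟩ := he _ hc1
    refine ⟨i, hi, ?_⟩
    have hmem : c ∈ {c | en c = e i} := hci
    apply le_antisymm
    · exact csInf_le' hmem
    · by_contra hlt
      rw [not_le] at hlt
      have h3 : sInf {c | en c = e i} ∈ {c | en c = e i} := csInf_mem ⟨c, hmem⟩
      have h4 : en (sInf {c | en c = e i}) = e i := h3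
      exact hc2 _ hlt (h4.trans hci.symm)
  have hidx : ∀ σ ξ, ∃ τ < K.ord, ∀ a z, nth (Cd δ K.ord t Q cs en σ ξ) a z → a < τ := by
    intro σ ξ
    obtain ⟨τ, hτ, -, h⟩ := Pool.Agent.H17.HD.XK.idx hVH (hfew σ ξ)
    exact ⟨τ, hτ, h⟩
  choose ρ hρ hρ2 using hidx
  obtain ⟨C1, hC1, hC1'⟩ := Pool.Agent.H10.PRK.gcx_cl hK hK0 t htlt
  obtain ⟨C2, hC2, hC2'⟩ := Pool.Agent.H10.PRK.gcx_cl hK hK0 ρ fun a _ b _ => hρ a b
  refine ⟨CF ∩ (C1 ∩ C2), Pool.Agent.H54.CL.clb_inter hK0 hK hCF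
    (Pool.Agent.H54.CL.clb_inter hK0 hK hC1 hC2), fun β hβ hβK => ?_⟩
  obtain ⟨hβF, hβ1, hβ2⟩ := hβ
  have hGm : DO fun w => Gm t (Cd δ K.ord t Q cs en) (w 0) (w 1) :=
    do_Gm ht (do_Cd hen hcs hR)
  let P : ZFSet.{u} → Prop := fun z => ∃ η c, Gm t (Cd δ K.ord t Q cs en) η c ∧
    z = ZFSet.pair η.toZFSet (en c ∩ β.toZFSet)
  have hP : DZ fun v => P (v 0) := by
    refine (DZ.ex (R := fun x v => ∃ y : ZFSet.{u}, (x.IsOrdinal ∧ y.IsOrdinal ∧ y.IsOrdinal ∧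
      Gm t (Cd δ K.ord t Q cs en) x.rank y.rank) ∧ ∃ W : ZFSet.{u}, (y.IsOrdinal ∧
      W = en y.rank) ∧ ∃ w : ZFSet.{u}, (∀ z, z ∈ w ↔ z ∈ W ∧ z ∈ β.toZFSet) ∧
      v 0 = ZFSet.pair x w) ?_).congr fun v => ?_
    · refine DZ.ex (R := fun y v => ((v 0).IsOrdinal ∧ y.IsOrdinal ∧ y.IsOrdinal ∧
        Gm t (Cd δ K.ord t Q cs en) (v 0).rank y.rank) ∧ ∃ W, (y.IsOrdinal ∧ W = en y.rank) ∧
        ∃ w, (∀ z, z ∈ w ↔ z ∈ W ∧ z ∈ β.toZFSet) ∧ v 1 = ZFSet.pair (v 0) w) ?_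
      refine DZ.and (dz3 (R := fun a b _ => Gm t (Cd δ K.ord t Q cs en) a b) hGm 1 0 0) ?_
      refine DZ.ex (R := fun W v => ((v 0).IsOrdinal ∧ W = en (v 0).rank) ∧
        ∃ w, (∀ z, z ∈ w ↔ z ∈ W ∧ z ∈ β.toZFSet) ∧ v 2 = ZFSet.pair (v 1) w) ?_
      refine DZ.and (hen.dz.ren fun n => if n = 0 then 1 else 0) ?_
      refine DZ.ex (R := fun w v => (∀ z, z ∈ w ↔ z ∈ v 0 ∧ z ∈ β.toZFSet) ∧
        v 3 = ZFSet.pair (v 2) w) ?_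
      refine DZ.and ?_ (loc_pair 4 3 0).dz
      refine DZ.all (R := fun z v => z ∈ v 0 ↔ z ∈ v 1 ∧ z ∈ β.toZFSet) ?_
      refine (DZ.mem 0 1).iff ((DZ.mem 0 2).and ?_)
      exact DZ.od (R := fun b v => v 0 ∈ b) (OD.ordinal β) (DZ.mem 1 0)
    · constructor
      · rintro ⟨η, c, hg, hz⟩
        refine ⟨η.toZFSet, c.toZFSet, ⟨ZFSet.isOrdinal_toZFSet _, ZFSet.isOrdinal_toZFSet _,
          ZFSet.isOrdinal_toZFSet _, ?_⟩, en c.toZFSet.rank,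
          ⟨ZFSet.isOrdinal_toZFSet _, rfl⟩, en c ∩ β.toZFSet, ?_, hz⟩
        · rw [rank_toZFSet, rank_toZFSet]
          exact hg
        · intro z
          rw [rank_toZFSet]
          exact ZFSet.mem_inter
      · rintro ⟨x, y, ⟨hx, hy, -, hg⟩, W, ⟨-, hW⟩, w, hw, hz⟩
        obtain ⟨η, rfl⟩ := ord_of hx
        obtain ⟨c, rfl⟩ := ord_of hy
        rw [rank_toZFSet, rank_toZFSet] at hg
        rw [rank_toZFSet] at hW
        refine ⟨η, c, hg, ?_⟩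
        have : w = en c ∩ β.toZFSet := by
          ext z
          rw [hw, hW, ZFSet.mem_inter]
        rw [← this]
        exact hz
  have hodw : ∀ c, OD (en c ∩ β.toZFSet) := by
    intro c
    refine OD.of_mem (P := fun v => v 0 ∈ en c ∧ v 0 ∈ β.toZFSet) (DZ.and ?_ ?_) fun v => ?_
    · exact DZ.od (R := fun b v => v 0 ∈ b) ((hen.od _).2 ⟨c, rfl⟩) (DZ.mem 1 0)
    · exact DZ.od (R := fun b v => v 0 ∈ b) (OD.ordinal β) (DZ.mem 1 0)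
    · exact ZFSet.mem_inter.symm
  have hsub : ∀ c, en c ∩ β.toZFSet ⊆ β.toZFSet := fun c z hz => (ZFSet.mem_inter.1 hz).2
  let G : ZFSet.{u} := ZFSet.sep P (ZFSet.prod β.toZFSet (ZFSet.powerset β.toZFSet))
  have hmemG : ∀ z, z ∈ G ↔ z ∈ ZFSet.prod β.toZFSet (ZFSet.powerset β.toZFSet) ∧ P z := by
    intro z
    exact ZFSet.mem_sep
  have hpair : ∀ w Y, ZFSet.pair w Y ∈ G → ∃ η c, Gm t (Cd δ K.ord t Q cs en) η c ∧
      w = η.toZFSet ∧ Y = en c ∩ β.toZFSet := by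
    intro w Y h
    obtain ⟨-, η, c, hg, he⟩ := (hmemG _).1 h
    obtain ⟨e1, e2⟩ := ZFSet.pair_injective he
    exact ⟨η, c, hg, e1, e2⟩
  refine ⟨G, ?_, ?_, ?_⟩
  · refine hod_iff.2 ⟨?_, fun y hy => ?_⟩
    · refine OD.of_mem (P := fun v => (∃ x ∈ β.toZFSet, ∃ w, (∀ z ∈ w, z ∈ β.toZFSet) ∧
        v 0 = ZFSet.pair x w) ∧ P (v 0)) (DZ.and ?_ hP) fun v => ?_
      · refine DZ.od (R := fun b v => ∃ x ∈ b, ∃ w, (∀ z ∈ w, z ∈ b) ∧ v 0 = ZFSet.pair x w)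
          (OD.ordinal β) ?_
        refine DZ.exMem (R := fun x v => ∃ w, (∀ z ∈ w, z ∈ v 0) ∧ v 1 = ZFSet.pair x w) 0 ?_
        refine DZ.ex (R := fun w v => (∀ z ∈ w, z ∈ v 1) ∧ v 2 = ZFSet.pair (v 0) w) ?_
        refine DZ.and ?_ (loc_pair 3 1 0).dz
        exact DZ.allMem (R := fun z v => z ∈ v 2) 0 (DZ.mem 0 3)
      · rw [hmemG]
        refine and_congr_left fun _ => ?_
        constructor
        · rintro ⟨x, hx, w, hw, he⟩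
          rw [he, ZFSet.pair_mem_prod]
          exact ⟨hx, ZFSet.mem_powerset.2 fun z hz => hw z hz⟩
        · intro h
          obtain ⟨x, hx, w, hw, he⟩ := ZFSet.mem_prod.1 h
          exact ⟨x, hx, w, fun z hz => ZFSet.mem_powerset.1 hw hz, he⟩
    · obtain ⟨-, η, c, -, rfl⟩ := (hmemG _).1 hy
      exact HOD.pair (HOD.ordinal η) (HOD.of_sub (hodw c) (hsub c))
  · intro w Y Y' hY hY'
    obtain ⟨η, c, ⟨ξ, σ, i, p, hp, hη, hn⟩, hw, rfl⟩ := hpair _ _ hY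
    obtain ⟨η', c', ⟨ξ', σ', i', p', hp', hη', hn'⟩, hw', rfl⟩ := hpair _ _ hY'
    have e1 : η = η' := toZFSet_injective (hw.symm.trans hw')
    obtain ⟨e2, e3⟩ := htinj ξ p ξ' p' (by rw [← hη, ← hη', e1])
    obtain ⟨e4, e5⟩ := htinj σ i σ' i' (by rw [← hp, ← hp', e3])
    subst e2 e4 e5
    rw [Pool.Agent.H17.HD.XK.nth_uniq hVH hn hn']
  · intro ξ hξ s hs hfin W hW
    obtain ⟨σ, hσ, hσs⟩ := hCF2 β hβF hβK s hs hfin
    obtain ⟨c0, hc0⟩ := (hen.od W).1 hW.1.od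
    have hne : ({c | en c = W} : Set Ordinal.{u}).Nonempty := ⟨c0, hc0⟩
    have hc1 : en (sInf {c | en c = W}) = W := csInf_mem hne
    obtain ⟨c, hc⟩ : ∃ c, c = sInf {c | en c = W} := ⟨_, rfl⟩
    rw [← hc] at hc1
    have hcC : c ∈ Cd δ K.ord t Q cs en σ ξ := by
      refine mem_Cd.2 ⟨?_, fun c' hc' he => ?_⟩
      · rw [hσs, hc1]
        exact hW
      · have h3 : c' ∈ {c | en c = W} := he.trans hc1
        have h4 := csInf_le' h3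
        rw [← hc] at h4
        exact absurd hc' (not_lt.2 h4)
    obtain ⟨i, -, hi⟩ := (hVH (Cd δ K.ord t Q cs en σ ξ)).1 c hcC
    have hiβ : i < β := (hρ2 σ ξ i c hi).trans ((hC2' β hβ2).2 σ hσ ξ hξ)
    have hσi : t σ i < β := (hC1' β hβ1).2 σ hσ i hiβ
    have hη : t ξ (t σ i) < β := (hC1' β hβ1).2 ξ hξ _ hσi
    refine ⟨t ξ (t σ i), hη, (hmemG _).2 ⟨?_, t ξ (t σ i), c, ⟨ξ, σ, i, t σ i, rfl, rfl, hi⟩, ?_⟩⟩
    · rw [ZFSet.pair_mem_prod]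
      exact ⟨toZFSet_mem_toZFSet_iff.2 hη, ZFSet.mem_powerset.2 fun z hz =>
        (ZFSet.mem_inter.1 hz).2⟩
    · rw [hc1]

end Pool.Agent.H43.PRP
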