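import Pool.Agent.H97.PRP.Targets
import Pool.Agent.H65.HD.SC
import Pool.Agent.H10.PRK.GCX

/-!
# Board prp_modules (MP_e37c09_lc), row RRF: there are few such sets
-/

open Ordinal Cardinal Order Set
open scoped ZFSet

universe u

namespace Pool.Agent.H43.PRP

open _root_.HD HD.PRK HD.PRP

/-! ## Definability of `Tt` -/

/-- a definable relation between three ordinals as a predicate of sets -/
theorem dz3 {R : Ordinal.{u} → Ordinal.{u} → Ordinal.{u} → Prop}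
    (h : DO fun w => R (w 0) (w 1) (w 2)) (i j k : ℕ) :
    DZ fun v => (v i).IsOrdinal ∧ (v j).IsOrdinal ∧ (v k).IsOrdinal ∧
      R (v i).rank (v j).rank (v k).rank := by
  obtain ⟨Q, hQ, h⟩ := h
  refine ((DZ.ord i).and ((DZ.ord j).and ((DZ.ord k).and
    (hQ.ren fun n => if n = 0 then i else if n = 1 then j else k)))).congr fun v => ?_
  refine and_congr_right fun hi => and_congr_right fun hj => and_congr_right fun hk => ?_
  obtain ⟨a, ha⟩ := ord_of hi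
  obtain ⟨b, hb⟩ := ord_of hj
  obtain ⟨c, hc⟩ := ord_of hk
  have h1 := h (fun n => if n = 0 then a else if n = 1 then b else c)
  have h2 : ov (fun n => if n = 0 then a else if n = 1 then b else c) =
      fun n => v (if n = 0 then i else if n = 1 then j else k) := by
    funext n
    unfold ov
    by_cases h0 : n = 0
    · simp [h0, ha]
    · by_cases h1 : n = 1
      · simp [h1, hb]
      · simp [h0, h1, hc]
  rw [h2] at h1
  rw [← h1, ha, hb, hc]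
  simp

/-- the class of the ordinals `a` with `Tt` is definable -/
theorem ds_Tt {t : Ordinal.{u} → Ordinal.{u} → Ordinal.{u}} {Q s W : ZFSet.{u}}
    (ht : DO fun w => w 2 = t (w 0) (w 1)) (hQ : OD Q) (hs : OD s) (hW : OD W) (ξ : Ordinal.{u}) :
    DS {a | Tt t Q s W ξ a} := by
  refine ⟨fun v => ∃ Y, ∃ w, w = insert (v 0) s ∧ ZFSet.pair w Y ∈ Q ∧ ∀ m ∈ v 0,
    (m ∈ W ↔ ∃ z ∈ Y, (ξ.toZFSet : ZFSet.{u}).IsOrdinal ∧ m.IsOrdinal ∧ z.IsOrdinal ∧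
      z.rank = t (ξ.toZFSet : ZFSet.{u}).rank m.rank), ?_, fun w => ?_⟩
  · refine DZ.od (R := fun x v => ∃ Y, ∃ w, w = insert (v 0) s ∧ ZFSet.pair w Y ∈ Q ∧ ∀ m ∈ v 0,
      (m ∈ W ↔ ∃ z ∈ Y, x.IsOrdinal ∧ m.IsOrdinal ∧ z.IsOrdinal ∧ z.rank = t x.rank m.rank))
      (OD.ordinal ξ) ?_
    refine DZ.od (R := fun x v => ∃ Y, ∃ w, w = insert (v 1) x ∧ ZFSet.pair w Y ∈ Q ∧ ∀ m ∈ v 1,
      (m ∈ W ↔ ∃ z ∈ Y, (v 0).IsOrdinal ∧ m.IsOrdinal ∧ z.IsOrdinal ∧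
        z.rank = t (v 0).rank m.rank)) hs ?_
    refine DZ.od (R := fun x v => ∃ Y, ∃ w, w = insert (v 2) (v 0) ∧ ZFSet.pair w Y ∈ x ∧
      ∀ m ∈ v 2, (m ∈ W ↔ ∃ z ∈ Y, (v 1).IsOrdinal ∧ m.IsOrdinal ∧ z.IsOrdinal ∧
        z.rank = t (v 1).rank m.rank)) hQ ?_
    refine DZ.od (R := fun x v => ∃ Y, ∃ w, w = insert (v 3) (v 1) ∧ ZFSet.pair w Y ∈ v 0 ∧
      ∀ m ∈ v 3, (m ∈ x ↔ ∃ z ∈ Y, (v 2).IsOrdinal ∧ m.IsOrdinal ∧ z.IsOrdinal ∧
        z.rank = t (v 2).rank m.rank)) hW ?_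
    -- variables: 0 = W, 1 = Q, 2 = s, 3 = ξ, 4 = a
    refine DZ.ex (R := fun Y v => ∃ w, w = insert (v 4) (v 2) ∧ ZFSet.pair w Y ∈ v 1 ∧
      ∀ m ∈ v 4, (m ∈ v 0 ↔ ∃ z ∈ Y, (v 3).IsOrdinal ∧ m.IsOrdinal ∧ z.IsOrdinal ∧
        z.rank = t (v 3).rank m.rank)) ?_
    refine DZ.ex (R := fun w v => w = insert (v 5) (v 3) ∧ ZFSet.pair w (v 0) ∈ v 2 ∧
      ∀ m ∈ v 5, (m ∈ v 1 ↔ ∃ z ∈ v 0, (v 4).IsOrdinal ∧ m.IsOrdinal ∧ z.IsOrdinal ∧
        z.rank = t (v 4).rank m.rank)) ?_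
    refine DZ.and (loc_insert 0 6 4).dz (DZ.and (loc_pmem 0 1 3).dz ?_)
    refine DZ.allMem (R := fun m v => (m ∈ v 2 ↔ ∃ z ∈ v 1, (v 5).IsOrdinal ∧ m.IsOrdinal ∧
      z.IsOrdinal ∧ z.rank = t (v 5).rank m.rank)) 6 ?_
    refine (DZ.mem 0 3).iff ?_
    refine DZ.exMem (R := fun z v => (v 6).IsOrdinal ∧ (v 0).IsOrdinal ∧
      z.IsOrdinal ∧ z.rank = t (v 6).rank (v 0).rank) 2 ?_
    exact dz3 (R := fun a b c => c = t a b) ht 7 1 0
  · constructor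
    · rintro ⟨Y, hY, h⟩
      refine ⟨Y, _, rfl, hY, fun m hm => ?_⟩
      obtain ⟨b, hb, rfl⟩ := mem_toZFSet_iff.1 hm
      rw [h b hb]
      constructor
      · intro hz
        exact ⟨_, hz, ZFSet.isOrdinal_toZFSet _, ZFSet.isOrdinal_toZFSet _,
          ZFSet.isOrdinal_toZFSet _, by rw [rank_toZFSet, rank_toZFSet, rank_toZFSet]⟩
      · rintro ⟨z, hz, -, -, hzo, he⟩
        obtain ⟨c, rfl⟩ := ord_of hzo
        rw [rank_toZFSet, rank_toZFSet, rank_toZFSet] at he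
        rw [← he]
        exact hz
    · rintro ⟨Y, x, rfl, hY, h⟩
      refine ⟨Y, hY, fun b hb => ?_⟩
      rw [h b.toZFSet (toZFSet_mem_toZFSet_iff.2 hb)]
      constructor
      · rintro ⟨z, hz, -, -, hzo, he⟩
        obtain ⟨c, rfl⟩ := ord_of hzo
        rw [rank_toZFSet, rank_toZFSet, rank_toZFSet] at he
        rw [← he]
        exact hz
      · intro hz
        exact ⟨_, hz, ZFSet.isOrdinal_toZFSet _, ZFSet.isOrdinal_toZFSet _,
          ZFSet.isOrdinal_toZFSet _, by rw [rank_toZFSet, rank_toZFSet, rank_toZFSet]⟩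

/-! ## Enumerations and cardinalities -/

theorem enumZ {ν : Cardinal.{u}} {S : Set ZFSet.{u}} (h : #S ≤ Cardinal.lift.{u + 1} ν) :
    ∃ e : Ordinal.{u} → ZFSet.{u}, ∀ W ∈ S, ∃ i < ν.ord, W = e i := by
  have h1 : #(Iio ν.ord) = Cardinal.lift.{u + 1} ν := by
    rw [Cardinal.mk_Iio_ordinal, Cardinal.card_ord]
  rw [← h1] at h
  obtain ⟨g, hg⟩ : ∃ g : S → Iio ν.ord, Function.Injective g := by
    obtain ⟨g⟩ := (Cardinal.le_def _ _).1 h
    exact ⟨g, g.injective⟩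
  classical
  refine ⟨fun a => if h : ∃ x : S, (g x).1 = a then (Classical.choose h).1 else ∅,
    fun W hW => ⟨(g ⟨W, hW⟩).1, (g ⟨W, hW⟩).2, ?_⟩⟩
  have hex : ∃ y : S, (g y).1 = (g ⟨W, hW⟩).1 := ⟨⟨W, hW⟩, rfl⟩
  simp only [hex, dif_pos]
  have := hg (Subtype.ext (Classical.choose_spec hex))
  rw [this]

/-- at one atom there are fewer than `D` sets -/
theorem countZ {D K M : Cardinal.{u}} (hK : K.IsRegular) (hK0 : ℵ₀ < K) (hDK : D < K)
    {t : Ordinal.{u} → Ordinal.{u} → Ordinal.{u}} {Q s : ZFSet.{u}} {ξ : Ordinal.{u}}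
    (hthin : Thin D.ord Q) {A : Set Ordinal.{u}} (hA : Pos M.ord K.ord A) {S : Set ZFSet.{u}}
    (hS : ∀ W ∈ S, W ⊆ K.ord.toZFSet ∧ ¬ Pos M.ord K.ord (A \ {a | Tt t Q s W ξ a})) :
    #S < Cardinal.lift.{u + 1} D := by
  by_contra hcon
  rw [not_lt] at hcon
  have h1 : #(Iio D.ord) = Cardinal.lift.{u + 1} D := by
    rw [Cardinal.mk_Iio_ordinal, Cardinal.card_ord]
  rw [← h1] at hcon
  obtain ⟨f, hf⟩ : ∃ f : Iio D.ord → S, Function.Injective f := by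
    obtain ⟨f⟩ := (Cardinal.le_def _ _).1 hcon
    exact ⟨f, f.injective⟩
  classical
  obtain ⟨F, hF⟩ : ∃ F : Ordinal.{u} → ZFSet.{u}, ∀ (i : Ordinal.{u}) (hi : i < D.ord),
      F i = (f ⟨i, hi⟩).1 :=
    ⟨fun i => if hi : i < D.ord then (f ⟨i, hi⟩).1 else ∅, fun i hi => by simp only [hi, dif_pos]⟩
  have hFS : ∀ i < D.ord, F i ∈ S := fun i hi => by rw [hF i hi]; exact (f ⟨i, hi⟩).2
  have hFi : ∀ i < D.ord, ∀ j < D.ord, F i = F j → i = j := by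
    intro i hi j hj he
    rw [hF i hi, hF j hj] at he
    have := hf (Subtype.ext he)
    exact congrArg Subtype.val this
  have hcof : ℵ₀ < K.ord.cof := by
    rw [hK.cof_ord]
    exact hK0
  have hDc : D.ord.card < K.ord.cof := by
    rw [hK.cof_ord, Cardinal.card_ord]
    exact hDK
  -- least differences
  have hdiff : ∀ i j, ∃ γ, γ < K.ord ∧ (i < D.ord → j < D.ord → i ≠ j →
      ¬ (γ.toZFSet ∈ F i ↔ γ.toZFSet ∈ F j)) := by
    intro i j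
    by_cases h : i < D.ord ∧ j < D.ord ∧ i ≠ j
    · obtain ⟨hi, hj, hij⟩ := h
      by_contra hno
      push Not at hno
      refine hij (hFi i hi j hj ?_)
      ext z
      constructor
      · intro hz
        obtain ⟨a, ha, rfl⟩ := mem_toZFSet_iff.1 ((hS _ (hFS i hi)).1 hz)
        exact (hno a ha).2.2.2.1 hz
      · intro hz
        obtain ⟨a, ha, rfl⟩ := mem_toZFSet_iff.1 ((hS _ (hFS j hj)).1 hz)
        exact (hno a ha).2.2.2.2 hz
    · exact ⟨0, hK.ord_pos, fun h1 h2 h3 => absurd ⟨h1, h2, h3⟩ h⟩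
  choose γ hγ hγ' using hdiff
  have hsup : ∀ i, ∃ v < K.ord, ∀ j < D.ord, γ i j < v := fun i =>
    Pool.Agent.H33.HD.VD.sup_lt hDc fun j _ => hγ i j
  choose g hg hg' using hsup
  obtain ⟨G, hG, hG'⟩ := Pool.Agent.H33.HD.VD.sup_lt hDc (f := g) fun i _ => hg i
  -- a point of the atom
  have hU := HD.All.va M.ord K.ord hcof D.ord hDc (fun i => A \ {a | Tt t Q s (F i) ξ a})
    fun i hi => (hS _ (hFS i hi)).2
  have hB := HD.All.vb M.ord K.ord G (Cardinal.isSuccLimit_ord hK0.le) hG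
  obtain ⟨C1, hC1, g1⟩ := Pool.Agent.H10.PRK.gcx_null hU
  obtain ⟨C2, hC2, g2⟩ := Pool.Agent.H10.PRK.gcx_null hB
  obtain ⟨a, haK, ⟨ha1, ha2⟩, haA, hac⟩ := hA _ (Pool.Agent.H65.HD.clb_inter hcof hC1 hC2)
  have haG : G ≤ a := not_lt.1 (g2 a haK ha2 hac)
  have haT : ∀ i < D.ord, Tt t Q s (F i) ξ a := by
    intro i hi
    by_contra hno
    exact g1 a haK ha1 hac ⟨i, hi, haA, hno⟩
  -- the values
  have hY : ∀ i, ∃ Y, i < D.ord → ZFSet.pair (insert a.toZFSet s) Y ∈ Q ∧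
      ∀ m < a, m.toZFSet ∈ F i ↔ (t ξ m).toZFSet ∈ Y := by
    intro i
    by_cases hi : i < D.ord
    · obtain ⟨Y, h⟩ := haT i hi
      exact ⟨Y, fun _ => h⟩
    · exact ⟨∅, fun h => absurd h hi⟩
  choose Y hY using hY
  have hYi : ∀ i < D.ord, ∀ j < D.ord, Y i = Y j → i = j := by
    intro i hi j hj he
    by_contra hij
    have h3 := hγ' i j hi hj hij
    have h4 : γ i j < a := ((hg' i j hj).trans (hG' i hi)).trans_le haG
    rw [(hY i hi).2 _ h4, (hY j hj).2 _ h4, he] at h3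
    exact h3 Iff.rfl
  obtain ⟨ν, hν, e, he⟩ := hthin (insert a.toZFSet s)
  have hidx : ∀ i, ∃ k, i < D.ord → k < ν.ord ∧ Y i = e k := by
    intro i
    by_cases hi : i < D.ord
    · obtain ⟨k, hk, h⟩ := he _ (hY i hi).1
      exact ⟨k, fun _ => ⟨hk, h⟩⟩
    · exact ⟨0, fun h => absurd h hi⟩
  choose k hk using hidx
  have hinj : Function.Injective (fun i : Iio D.ord => (⟨k i.1, (hk i.1 i.2).1⟩ : Iio ν.ord)) := by
    intro i j hij
    have h5 : k i.1 = k j.1 := congrArg Subtype.val hij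
    apply Subtype.ext
    apply hYi i.1 i.2 j.1 j.2
    rw [(hk i.1 i.2).2, (hk j.1 j.2).2, h5]
  have h6 := Cardinal.mk_le_of_injective hinj
  rw [Cardinal.mk_Iio_ordinal, Cardinal.mk_Iio_ordinal, Cardinal.card_ord, Cardinal.card_ord,
    Cardinal.lift_le] at h6
  exact absurd (Cardinal.ord_lt_ord.1 hν) (not_lt.2 h6)

/-- a positive class contains an ordinal whose cofinality is a regular cardinal -/
theorem pos_reg {K : Cardinal.{u}} (hK : K.IsRegular) (hK0 : ℵ₀ < K) {μ : Ordinal.{u}}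
    {X : Set Ordinal.{u}} (h : Pos μ K.ord X) : ∃ M : Cardinal.{u}, M.IsRegular ∧ M.ord = μ := by
  have hlim : IsSuccLimit K.ord := Cardinal.isSuccLimit_ord hK0.le
  have hL := HD.All.ve K hK hK0 succ (fun x hx => hlim.succ_lt hx)
  obtain ⟨a, haK, ⟨ha0, hal⟩, haT, hac⟩ := h _ hL
  have hal2 : IsSuccLimit a := by
    refine ⟨fun hm => ?_, fun b hb => ?_⟩
    · exact absurd (hm.eq_bot) ha0.ne'
    · exact absurd (hal b hb.lt) (by rw [Order.succ_eq_of_covBy hb]; exact lt_irrefl _)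
  exact ⟨a.cof, Cardinal.isRegular_cof hal2, hac⟩

theorem pf_RRF : T_RRF.{u} := by
  intro δ hext hA K hK hδK t Q ht hQ hthin s ξ hs
  obtain ⟨D, hD, hDr, hDs, hD0⟩ : ∃ D : Cardinal.{u}, δ = D.ord ∧ D.IsRegular ∧
      D.IsStrongLimit ∧ ℵ₀ < D := by
    obtain ⟨η, -, θ, j, h⟩ := HD.All.xa δ hext 0
    exact HD.All.xb δ η θ j h
  subst hD
  have hDK : D < K := Cardinal.ord_lt_ord.1 hδK
  have hK0 : ℵ₀ < K := hD0.trans hDK
  have hcof : ℵ₀ < K.ord.cof := by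
    rw [hK.cof_ord]
    exact hK0
  obtain ⟨en, hen⟩ := HD.All.en
  -- the atoms
  have hat : ∀ μ : Ordinal.{u}, ∃ τ : Ordinal.{u}, ∃ e : Ordinal.{u} → Ordinal.{u},
      ∀ M : Cardinal.{u}, M.IsRegular → M < D → M.ord = μ → τ < D.ord ∧
        (∀ i < τ, Atom en μ K.ord (e i)) ∧ ¬ Pos μ K.ord {b | ∀ i < τ, b ∉ E en (e i)} := by
    intro μ
    by_cases hμ : ∃ M : Cardinal.{u}, M.IsRegular ∧ M < D ∧ M.ord = μ
    · obtain ⟨M, hM, hMD, rfl⟩ := hμ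
      have hNS := HD.All.xl D.ord hext hA M K hM (Cardinal.ord_lt_ord.2 hMD) hK hδK
      have hNSX := HD.All.ha D.ord M.ord K.ord hNS
      have hat := HD.All.hb en hen D M K hDr hDs hD0 hM hMD hK hDK hNSX
      obtain ⟨τ, hτ, e, he, hnull⟩ := HD.All.hc en hen D M K hDr hD0 hM hMD hK hDK hNSX hat
      exact ⟨τ, e, fun _ _ _ _ => ⟨hτ, he, hnull⟩⟩
    · exact ⟨0, fun _ => 0, fun M h1 h2 h3 => absurd ⟨M, h1, h2, h3⟩ hμ⟩
  choose τ e hat using hat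
  let S : Ordinal.{u} → Ordinal.{u} → Set ZFSet.{u} := fun μ i =>
    {W | W ⊆ K.ord.toZFSet ∧ (∃ M : Cardinal.{u}, M.IsRegular ∧ M < D ∧ M.ord = μ) ∧ i < τ μ ∧
      ¬ Pos μ K.ord (E en (e μ i) \ {a | Tt t Q s W ξ a})}
  have hcard : ∀ μ i, #(S μ i) ≤ Cardinal.lift.{u + 1} D := by
    intro μ i
    by_cases h : (∃ M : Cardinal.{u}, M.IsRegular ∧ M < D ∧ M.ord = μ) ∧ i < τ μ
    · obtain ⟨⟨M, hM, hMD, rfl⟩, hi⟩ := h
      have hpos := ((hat M.ord M hM hMD rfl).2.1 i hi).pos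
      exact (countZ hK hK0 hDK hthin hpos (S := S M.ord i)
        fun W hW => ⟨hW.1, hW.2.2.2⟩).le
    · have : S μ i = ∅ := by
        ext W
        simp only [S, mem_ofPred_eq, mem_empty_iff_false, iff_false]
        rintro ⟨-, h1, h2, -⟩
        exact h ⟨h1, h2⟩
      rw [this]
      simp
  have hDI : #(Iio D.ord) = Cardinal.lift.{u + 1} D := by
    rw [Cardinal.mk_Iio_ordinal, Cardinal.card_ord]
  have hD0' : ℵ₀ ≤ Cardinal.lift.{u + 1} D := by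
    rw [← Cardinal.lift_aleph0.{u + 1, u}, Cardinal.lift_le]
    exact hD0.le
  have hcard2 : #(⋃ μ : Iio D.ord, ⋃ i : Iio D.ord, S μ.1 i.1) ≤ Cardinal.lift.{u + 1} D := by
    have h1 : ∀ μ : Iio D.ord, #(⋃ i : Iio D.ord, S μ.1 i.1) ≤ Cardinal.lift.{u + 1} D := by
      intro μ
      refine (Cardinal.mk_iUnion_le _).trans ?_
      rw [hDI]
      calc Cardinal.lift.{u + 1} D * ⨆ i : Iio D.ord, #(S μ.1 i.1)
          ≤ Cardinal.lift.{u + 1} D * Cardinal.lift.{u + 1} D :=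
            mul_le_mul_right (ciSup_le' fun i => hcard _ _) _
        _ = Cardinal.lift.{u + 1} D := Cardinal.mul_eq_self hD0'
    refine (Cardinal.mk_iUnion_le _).trans ?_
    rw [hDI]
    calc Cardinal.lift.{u + 1} D * ⨆ μ : Iio D.ord, #(⋃ i : Iio D.ord, S μ.1 i.1)
        ≤ Cardinal.lift.{u + 1} D * Cardinal.lift.{u + 1} D :=
          mul_le_mul_right (ciSup_le' fun i => h1 _) _
      _ = Cardinal.lift.{u + 1} D := Cardinal.mul_eq_self hD0'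
  obtain ⟨e', he'⟩ := enumZ hcard2
  refine ⟨D, hDK, e', fun W hW => he' W ?_⟩
  obtain ⟨hWh, hWK, M0, hM0, hpos⟩ := hW
  obtain ⟨M, hM, rfl⟩ := pos_reg hK hK0 hpos
  have hMD : M < D := Cardinal.ord_lt_ord.1 hM0
  obtain ⟨hτ, hat1, hnull⟩ := hat M.ord M hM hMD rfl
  obtain ⟨i, hi, hposi⟩ : ∃ i < τ M.ord,
      Pos M.ord K.ord ({a | Tt t Q s W ξ a} ∩ E en (e M.ord i)) := by
    by_contra hno
    have hno' : ∀ i < τ M.ord, ¬ Pos M.ord K.ord ({a | Tt t Q s W ξ a} ∩ E en (e M.ord i)) :=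
      fun i hi h => hno ⟨i, hi, h⟩
    have hτK : (τ M.ord).card < K.ord.cof := by
      rw [hK.cof_ord]
      exact (Cardinal.lt_ord.1 hτ).trans hDK
    have hU := HD.All.va M.ord K.ord hcof (τ M.ord) hτK
      (fun i => {a | Tt t Q s W ξ a} ∩ E en (e M.ord i)) hno'
    unfold Pos at hU hnull
    push Not at hU hnull
    obtain ⟨C1, hC1, g1⟩ := hU
    obtain ⟨C2, hC2, g2⟩ := hnull
    obtain ⟨b, hbK, ⟨hb1, hb2⟩, hbT, hbc⟩ := hpos _
      (Pool.Agent.H65.HD.clb_inter hcof hC1 hC2)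
    by_cases hb : ∃ i < τ M.ord, b ∈ E en (e M.ord i)
    · obtain ⟨i, hi, hbi⟩ := hb
      exact g1 b hbK hb1 ⟨i, hi, hbT, hbi⟩ hbc
    · exact g2 b hbK hb2 (fun i hi hbi => hb ⟨i, hi, hbi⟩) hbc
  have hdiff : ¬ Pos M.ord K.ord (E en (e M.ord i) \ {a | Tt t Q s W ξ a}) := by
    refine (Pool.Agent.H10.PRK.gcx_ult hen (hat1 i hi)
      (ds_Tt ht hQ hs hWh.od ξ)).resolve_left fun h => h ?_
    rw [inter_comm]
    exact hposi
  have hiD : i < D.ord := hi.trans hτ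
  exact mem_iUnion.2 ⟨⟨M.ord, hM0⟩, mem_iUnion.2 ⟨⟨i, hiD⟩, hWK, ⟨M, hM, hMD, rfl⟩, hi, hdiff⟩⟩

end Pool.Agent.H43.PRP
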